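import Mathlib

/-!
# Exchange lemma

`V` is an invertible real `d × d` matrix (rows `v_j`) with entries bounded by `D`.  There is a list `Ms` of
integer vectors, of length at most `log (d! D^d / |det V|) / log R`, such that a real vector `y` with small entries
for which all the numbers `⟨m, y⟩`, `m ∈ Ms`, are near integers, has small coordinates with respect to `V`.
-/

set_option autoImplicit false

namespace Pool.Agent.TH858.CB

open Matrix Finset

/-- The distance from a real number to the nearest integer. -/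
noncomputable def nint (a : ℝ) : ℝ := |a - ((round a : ℤ) : ℝ)|

lemma nint_nonneg (a : ℝ) : 0 ≤ nint a := abs_nonneg _

lemma nint_add_int (a : ℝ) (z : ℤ) : nint (a + z) = nint a := by
  unfold nint
  rw [round_add_intCast]
  push_cast
  congr 1
  ring

lemma nint_of_small {a : ℝ} (h : |a| < 1 / 2) : nint a = |a| := by
  unfold nint
  have h' := abs_lt.mp h
  have : round a = 0 := by
    rw [round_eq_zero_iff]
    constructor
    · linarith [h'.1]
    · exact h'.2
  rw [this]
  simp

variable {d : ℕ}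

/-- A state of the exchange process. -/
def State (V : Matrix (Fin d) (Fin d) ℝ) (D R ε : ℝ) (n : ℕ) : Prop :=
  ∃ (Ms : List (Fin d → ℤ)) (M : Matrix (Fin d) (Fin d) ℝ), Ms.length = n ∧ M.det ≠ 0 ∧ (∀ i j, |M i j| ≤ D) ∧
    R ^ n * |V.det| ≤ |M.det| ∧
    ∀ y : Fin d → ℝ, (∀ k, |y k| ≤ ε) → (∀ m ∈ Ms, nint (∑ k, (m k : ℝ) * y k) ≤ ε) →
      ∀ i, |(M *ᵥ (y ᵥ* V⁻¹)) i| ≤ ε * (1 + d / 2)

/-- The goal of the exchange process. -/
def Goal (V : Matrix (Fin d) (Fin d) ℝ) (D R ε : ℝ) : Prop :=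
  ∃ Ms : List (Fin d → ℤ), R ^ Ms.length * |V.det| ≤ d.factorial * D ^ d ∧
    ∀ y : Fin d → ℝ, (∀ k, |y k| ≤ ε) → (∀ m ∈ Ms, nint (∑ k, (m k : ℝ) * y k) ≤ ε) →
      ∀ j, |(y ᵥ* V⁻¹) j| ≤ d * R * (ε * (1 + d / 2))

lemma det_le' (M : Matrix (Fin d) (Fin d) ℝ) (D : ℝ) (h : ∀ i j, |M i j| ≤ D) :
    |M.det| ≤ d.factorial * D ^ d := by
  have := Matrix.det_le (A := M) (abv := AbsoluteValue.abs) (x := D) (by simpa using h)
  simpa [nsmul_eq_mul] using this

lemma state_zero (V : Matrix (Fin d) (Fin d) ℝ) (hV : V.det ≠ 0) (D R ε : ℝ) (hD : ∀ i j, |V i j| ≤ D)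
    (hε : 0 ≤ ε) : State V D R ε 0 := by
  refine ⟨[], Vᵀ, rfl, by simpa using hV, fun i j => hD j i, by simp, ?_⟩
  intro y hy _ i
  have h1 : Vᵀ *ᵥ (y ᵥ* V⁻¹) = y := by
    rw [Matrix.mulVec_transpose, Matrix.vecMul_vecMul, Matrix.nonsing_inv_mul _ (isUnit_iff_ne_zero.mpr hV),
      Matrix.vecMul_one]
  rw [h1]
  calc |y i| ≤ ε := hy i
    _ ≤ ε * (1 + d / 2) := by
        have : (0 : ℝ) ≤ d := Nat.cast_nonneg d
        nlinarith

lemma state_succ (V : Matrix (Fin d) (Fin d) ℝ) (D R ε : ℝ)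
    (hD1 : 1 ≤ D) (hR : 1 < R) (hε : 0 ≤ ε)
    (hsmall : d * R * (ε * (1 + d / 2)) + d * ε / 2 < 1 / 2) (n : ℕ) (h : State V D R ε n) :
    Goal V D R ε ∨ State V D R ε (n + 1) := by
  obtain ⟨Ms, M, hlen, hM, hMD, hdet, hinv⟩ := h
  have hd0 : (0 : ℝ) ≤ d := Nat.cast_nonneg d
  have hMu : IsUnit M.det := isUnit_iff_ne_zero.mpr hM
  set δ := ε * (1 + d / 2) with hδ
  have hδ0 : 0 ≤ δ := by positivity
  by_cases hall : ∀ j i, |M⁻¹ j i| ≤ R
  · left
    refine ⟨Ms, ?_, ?_⟩
    · rw [hlen]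
      exact hdet.trans (det_le' M D hMD)
    · intro y hy hMs j
      have hb := hinv y hy hMs
      have e : (y ᵥ* V⁻¹) j = ∑ i, M⁻¹ j i * (M *ᵥ (y ᵥ* V⁻¹)) i := by
        have : y ᵥ* V⁻¹ = M⁻¹ *ᵥ (M *ᵥ (y ᵥ* V⁻¹)) := by
          rw [Matrix.mulVec_mulVec, Matrix.nonsing_inv_mul _ hMu, Matrix.one_mulVec]
        conv_lhs => rw [this]
        rfl
      rw [e]
      calc |∑ i, M⁻¹ j i * (M *ᵥ (y ᵥ* V⁻¹)) i| ≤ ∑ i, |M⁻¹ j i * (M *ᵥ (y ᵥ* V⁻¹)) i| := abs_sum_le_sum_abs _ _
        _ ≤ ∑ _i : Fin d, R * δ := by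
            refine sum_le_sum fun i _ => ?_
            rw [abs_mul]
            exact mul_le_mul (hall j i) (hb i) (abs_nonneg _) (by linarith)
        _ = d * R * δ := by simp [mul_assoc]
  · right
    push Not at hall
    obtain ⟨j0, i0, h0⟩ := hall
    -- the maximal entry
    obtain ⟨⟨j, i⟩, -, hmax⟩ := Finset.exists_max_image (Finset.univ : Finset (Fin d × Fin d))
      (fun p => |M⁻¹ p.1 p.2|) ⟨(j0, i0), mem_univ _⟩
    have hmax' : ∀ a b, |M⁻¹ a b| ≤ |M⁻¹ j i| := fun a b => hmax (a, b) (mem_univ _)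
    set a := |M⁻¹ j i| with ha
    have haR : R < a := lt_of_lt_of_le h0 (hmax' j0 i0)
    have ha0 : 0 < a := by linarith
    set s := R / a with hs
    have hs0 : 0 < s := by positivity
    have hs1 : s ≤ 1 := by rw [hs, div_le_one ha0]; exact haR.le
    have hsa : s * a = R := by rw [hs]; field_simp
    set m : Fin d → ℤ := fun k => round (s * V⁻¹ k j) with hm
    refine ⟨m :: Ms, M.updateRow i (s • Pi.single j 1), by simp [hlen], ?_, ?_, ?_, ?_⟩
    · rw [Matrix.det_updateRow_smul, ← Matrix.adjugate_apply]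
      have : M⁻¹ j i = M.det⁻¹ * M.adjugate j i := by
        rw [Matrix.inv_def]; simp
      have h3 : M.adjugate j i ≠ 0 := by
        intro h
        rw [h, mul_zero] at this
        rw [ha, this, abs_zero] at ha0
        exact lt_irrefl _ ha0
      exact mul_ne_zero hs0.ne' h3
    · intro i' j'
      by_cases hi : i' = i
      · subst hi
        rw [Matrix.updateRow_self]
        simp only [Pi.smul_apply, smul_eq_mul]
        by_cases hj : j' = j
        · subst hj
          rw [Pi.single_eq_same, mul_one, abs_of_pos hs0]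
          linarith
        · rw [Pi.single_eq_of_ne hj, mul_zero, abs_zero]
          linarith
      · rw [Matrix.updateRow_ne hi]
        exact hMD i' j'
    · rw [Matrix.det_updateRow_smul, ← Matrix.adjugate_apply]
      have e1 : M.adjugate j i = M.det * M⁻¹ j i := by
        rw [Matrix.inv_def]; simp [hM]
      rw [e1, abs_mul, abs_mul, abs_of_pos hs0, ← ha]
      calc R ^ (n + 1) * |V.det| = R * (R ^ n * |V.det|) := by ring
        _ ≤ R * |M.det| := by
            exact mul_le_mul_of_nonneg_left hdet (by linarith)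
        _ = s * (|M.det| * a) := by rw [← hsa]; ring
    · intro y hy hMs i'
      have hMs' : ∀ m ∈ Ms, nint (∑ k, (m k : ℝ) * y k) ≤ ε := fun m' hm' => hMs m' (List.mem_cons_of_mem _ hm')
      have hmm : nint (∑ k, (m k : ℝ) * y k) ≤ ε := hMs m (List.mem_cons_self)
      have hb := hinv y hy hMs'
      set t := y ᵥ* V⁻¹ with ht
      by_cases hi : i' = i
      · subst hi
        have e2 : (M.updateRow i' (s • Pi.single j 1) *ᵥ t) i' = s * t j := by
          simp [Matrix.mulVec, dotProduct, Matrix.updateRow_self, Pi.single_apply]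
        rw [e2]
        have e : t j = ∑ l, M⁻¹ j l * (M *ᵥ t) l := by
          have : t = M⁻¹ *ᵥ (M *ᵥ t) := by
            rw [Matrix.mulVec_mulVec, Matrix.nonsing_inv_mul _ hMu, Matrix.one_mulVec]
          conv_lhs => rw [this]
          rfl
        have h4 : |t j| ≤ d * a * δ := by
          rw [e]
          calc |∑ l, M⁻¹ j l * (M *ᵥ t) l| ≤ ∑ l, |M⁻¹ j l * (M *ᵥ t) l| := abs_sum_le_sum_abs _ _
            _ ≤ ∑ _l : Fin d, a * δ := by
                refine sum_le_sum fun l _ => ?_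
                rw [abs_mul]
                exact mul_le_mul (hmax' j l) (hb l) (abs_nonneg _) ha0.le
            _ = d * a * δ := by simp [mul_assoc]
        have h5 : |s * t j| ≤ d * R * δ := by
          rw [abs_mul, abs_of_pos hs0]
          calc s * |t j| ≤ s * (d * a * δ) := mul_le_mul_of_nonneg_left h4 hs0.le
            _ = d * R * δ := by rw [← hsa]; ring
        have h6 : |(∑ k, (m k : ℝ) * y k) - s * t j| ≤ d * ε / 2 := by
          have : (∑ k, (m k : ℝ) * y k) - s * t j = ∑ k, ((m k : ℝ) - s * V⁻¹ k j) * y k := by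
            rw [ht]
            simp only [Matrix.vecMul, dotProduct]
            rw [mul_sum, ← sum_sub_distrib]
            refine sum_congr rfl fun k _ => ?_
            ring
          rw [this]
          calc |∑ k, ((m k : ℝ) - s * V⁻¹ k j) * y k| ≤ ∑ k, |((m k : ℝ) - s * V⁻¹ k j) * y k| :=
                abs_sum_le_sum_abs _ _
            _ ≤ ∑ _k : Fin d, 1 / 2 * ε := by
                refine sum_le_sum fun k _ => ?_
                rw [abs_mul]
                refine mul_le_mul ?_ (hy k) (abs_nonneg _) (by norm_num)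
                rw [abs_sub_comm]
                exact abs_sub_round _
            _ = d * ε / 2 := by simp; ring
        have h7 : |∑ k, (m k : ℝ) * y k| < 1 / 2 := by
          have := abs_sub_abs_le_abs_sub (∑ k, (m k : ℝ) * y k) (s * t j)
          linarith
        rw [nint_of_small h7] at hmm
        have h8 := abs_sub_abs_le_abs_sub (s * t j) (∑ k, (m k : ℝ) * y k)
        rw [abs_sub_comm] at h8
        calc |s * t j| ≤ ε + d * ε / 2 := by linarith
          _ = δ := by rw [hδ]; ring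
      · have e2 : (M.updateRow i (s • Pi.single j 1) *ᵥ t) i' = (M *ᵥ t) i' := by
          simp only [Matrix.mulVec, Matrix.updateRow_ne hi]
        rw [e2]
        exact hb i'

/-- The exchange lemma. -/
theorem exch (V : Matrix (Fin d) (Fin d) ℝ) (hV : V.det ≠ 0) (D R ε : ℝ) (hD : ∀ i j, |V i j| ≤ D)
    (hD1 : 1 ≤ D) (hR : 1 < R) (hε : 0 ≤ ε)
    (hsmall : d * R * (ε * (1 + d / 2)) + d * ε / 2 < 1 / 2) :
    ∃ Ms : List (Fin d → ℤ), R ^ Ms.length * |V.det| ≤ d.factorial * D ^ d ∧
      ∀ y : Fin d → ℝ, (∀ k, |y k| ≤ ε) → (∀ m ∈ Ms, nint (∑ k, (m k : ℝ) * y k) ≤ ε) →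
        ∀ j, |(y ᵥ* V⁻¹) j| ≤ d * R * (ε * (1 + d / 2)) := by
  have key : ∀ n, Goal V D R ε ∨ State V D R ε n := by
    intro n
    induction n with
    | zero => exact Or.inr (state_zero V hV D R ε hD hε)
    | succ n ih =>
      rcases ih with h | h
      · exact Or.inl h
      · exact state_succ V D R ε hD1 hR hε hsmall n h
  by_contra hcon
  have hst : ∀ n, State V D R ε n := fun n => (key n).resolve_left hcon
  have hVpos : 0 < |V.det| := abs_pos.mpr hV
  obtain ⟨n, hn⟩ := pow_unbounded_of_one_lt (d.factorial * D ^ d / |V.det|) hR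
  obtain ⟨Ms, M, -, -, hMD, hdet, -⟩ := hst n
  have := det_le' M D hMD
  rw [div_lt_iff₀ hVpos] at hn
  linarith

end Pool.Agent.TH858.CB
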