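import Mathlib

/-!
# Counting with the index of a lattice

`A ⊆ ℤ/N`, `γ_1, …, γ_d ∈ ℤ/N`; every `x ∈ A` has an integer vector `Y x` congruent to `(γ_k x)_k` modulo `N` whose
coordinates with respect to `d` independent integer vectors of this kind are at most one in absolute value. Then
`|A| N^d ≤ 5^d N |det|`.
-/

set_option autoImplicit false

namespace Pool.Agent.TH858.CB

open Matrix Finset

variable {d : ℕ}

lemma index_span (m : Fin d → Fin d → ℤ) (h : (Matrix.of m).det ≠ 0) :
    (Submodule.span ℤ (Set.range m)).toAddSubgroup.index = (Matrix.of m).det.natAbs := by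
  have hli : LinearIndependent ℤ m := by
    have := Matrix.linearIndependent_rows_of_det_ne_zero h
    exact this
  have h1 := Submodule.natAbs_det_basis_change (Pi.basisFun ℤ (Fin d)) (Submodule.span ℤ (Set.range m))
    (Module.Basis.span hli)
  have h2 : (Pi.basisFun ℤ (Fin d)).det ((↑) ∘ (Module.Basis.span hli)) = (Matrix.of m).det := by
    have h3 : ((↑) ∘ (Module.Basis.span hli) : Fin d → (Fin d → ℤ)) = m := by
      funext i
      simp [Module.Basis.span_apply]
    rw [h3, Pi.basisFun_det_apply]
  rw [h2] at h1
  rw [h1]
  rfl

/-- The homomorphism `x ↦ (γ_k x)_k`. -/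
def phi {N : ℕ} (γ : Fin d → ZMod N) : ZMod N →+ (Fin d → ZMod N) where
  toFun x := fun k => γ k * x
  map_zero' := by funext k; simp
  map_add' x y := by funext k; simp [mul_add]

/-- Reduction modulo `N`. -/
def red (N d : ℕ) : (Fin d → ℤ) →+ (Fin d → ZMod N) where
  toFun v := fun k => ((v k : ℤ) : ZMod N)
  map_zero' := by funext k; simp
  map_add' x y := by funext k; simp

lemma red_surj (N d : ℕ) : Function.Surjective (red N d) := by
  intro v
  refine ⟨fun k => (ZMod.intCast_surjective (v k)).choose, ?_⟩
  funext k
  exact (ZMod.intCast_surjective (v k)).choose_spec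

theorem card_le {N : ℕ} [NeZero N] (γ : Fin d → ZMod N) (m : Fin d → Fin d → ℤ)
    (hm : ∀ j, ∃ g : ZMod N, ∀ k, ((m j k : ℤ) : ZMod N) = γ k * g)
    (hdet : (Matrix.of m).det ≠ 0) (A : Finset (ZMod N)) (Y : ZMod N → Fin d → ℤ)
    (hY : ∀ x ∈ A, ∀ k, ((Y x k : ℤ) : ZMod N) = γ k * x)
    (t : ZMod N → Fin d → ℝ)
    (ht : ∀ x ∈ A, ∀ k, (Y x k : ℝ) = ∑ j, t x j * (m j k : ℝ))
    (ht1 : ∀ x ∈ A, ∀ j, |t x j| ≤ 1) :
    A.card * N ^ d ≤ 5 ^ d * N * (Matrix.of m).det.natAbs := by
  classical
  choose g hg using hm
  set L : AddSubgroup (Fin d → ℤ) := (phi γ).range.comap (red N d) with hL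
  set L1 : AddSubgroup (Fin d → ℤ) := (Submodule.span ℤ (Set.range m)).toAddSubgroup with hL1
  have hL1L : L1 ≤ L := by
    intro v hv
    have hv' : v ∈ Submodule.span ℤ (Set.range m) := hv
    rw [Submodule.mem_span_range_iff_exists_fun] at hv'
    obtain ⟨c, rfl⟩ := hv'
    refine AddSubgroup.sum_mem _ fun j _ => ?_
    refine AddSubgroup.zsmul_mem _ ?_ _
    rw [hL, AddSubgroup.mem_comap]
    refine ⟨g j, ?_⟩
    funext k
    exact (hg j k).symm
  have hidx1 : L1.index = (Matrix.of m).det.natAbs := index_span m hdet
  have hidx1' : L1.index ≠ 0 := by rw [hidx1]; exact Int.natAbs_ne_zero.mpr hdet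
  have e1 : L1.relIndex L * L.index = (Matrix.of m).det.natAbs := by
    rw [AddSubgroup.relIndex_mul_index hL1L, hidx1]
  have e2 : L.index = (phi γ).range.index := AddSubgroup.index_comap_of_surjective _ (red_surj N d)
  have e3 : Nat.card (phi γ).range * (phi γ).range.index = N ^ d := by
    rw [AddSubgroup.card_mul_index]
    simp
  have e4 : Nat.card (phi γ).ker * Nat.card (phi γ).range = N := by
    rw [← AddSubgroup.index_ker, AddSubgroup.card_mul_index]
    simp
  have hrel : L1.relIndex L ≠ 0 := by
    intro h
    rw [h, zero_mul] at e1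
    exact hdet (Int.natAbs_eq_zero.mp e1.symm)
  -- the main count
  have hmain : A.card ≤ (5 ^ d * Nat.card (phi γ).ker) * L1.relIndex L := by
    have hfin : Finite (L ⧸ (L1.addSubgroupOf L)) := by
      apply Nat.finite_of_card_ne_zero
      exact hrel
    letI : Fintype (L ⧸ (L1.addSubgroupOf L)) := Fintype.ofFinite _
    have hYL : ∀ x ∈ A, Y x ∈ L := by
      intro x hx
      rw [hL, AddSubgroup.mem_comap]
      refine ⟨x, ?_⟩
      funext k
      exact (hY x hx k).symm
    let f : {x // x ∈ A} → L ⧸ (L1.addSubgroupOf L) := fun x => QuotientAddGroup.mk ⟨Y x.1, hYL x.1 x.2⟩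
    have hcount := Finset.card_le_mul_card_image_of_maps_to (f := f) (s := (univ : Finset {x // x ∈ A}))
      (t := univ) (fun _ _ => mem_univ _) (5 ^ d * Nat.card (phi γ).ker) ?_
    · rw [card_univ, Fintype.card_coe, card_univ, ← Nat.card_eq_fintype_card] at hcount
      exact hcount
    · intro b _
      rcases (univ.filter fun a => f a = b).eq_empty_or_nonempty with he | ⟨a0, ha0⟩
      · rw [he, card_empty]; exact Nat.zero_le _
      · letI : Fintype (phi γ).ker := Fintype.ofFinite _
        have hsub : (univ.filter fun a => f a = b).map (Function.Embedding.subtype _) ⊆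
            ((Fintype.piFinset fun _ : Fin d => Finset.Icc (-2 : ℤ) 2) ×ˢ (univ : Finset (phi γ).ker)).image
              (fun p => a0.1 + ∑ j, (p.1 j : ZMod N) * g j + p.2.1) := by
          intro x hx
          rw [Finset.mem_map] at hx
          obtain ⟨a, ha, rfl⟩ := hx
          have h1 : f a = f a0 := by
            rw [(mem_filter.mp ha).2, (mem_filter.mp ha0).2]
          rw [QuotientAddGroup.eq] at h1
          have h2 : -Y a.1 + Y a0.1 ∈ L1 := h1
          have h3 : Y a.1 - Y a0.1 ∈ Submodule.span ℤ (Set.range m) := by
            have := L1.neg_mem h2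
            have e : -(-Y a.1 + Y a0.1) = Y a.1 - Y a0.1 := by abel
            rw [e] at this
            exact this
          rw [Submodule.mem_span_range_iff_exists_fun] at h3
          obtain ⟨c, hc⟩ := h3
          have hck : ∀ k, Y a.1 k - Y a0.1 k = ∑ j, c j * m j k := by
            intro k
            have := congrFun hc k
            simp only [Finset.sum_apply, Pi.smul_apply, smul_eq_mul, Pi.sub_apply] at this
            exact this.symm
          -- the coefficients are differences of coordinates
          have hct : ∀ j, t a.1 j - t a0.1 j - (c j : ℝ) = 0 := by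
            have hM : ((Matrix.of m).map (Int.cast : ℤ → ℝ)).det ≠ 0 := by
              have : ((Matrix.of m).map (Int.cast : ℤ → ℝ)).det = (((Matrix.of m).det : ℤ) : ℝ) := by
                have := (Int.castRingHom ℝ).map_det (Matrix.of m)
                rw [eq_comm] at this
                exact this
              rw [this]
              exact_mod_cast hdet
            have hz : (fun j => t a.1 j - t a0.1 j - (c j : ℝ)) ᵥ* ((Matrix.of m).map (Int.cast : ℤ → ℝ)) = 0 := by
              funext k
              simp only [Matrix.vecMul, dotProduct, Matrix.map_apply, Matrix.of_apply, Pi.zero_apply]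
              have h4 := ht a.1 a.2 k
              have h5 := ht a0.1 a0.2 k
              have h6 : (Y a.1 k : ℝ) - (Y a0.1 k : ℝ) = ∑ j, (c j : ℝ) * (m j k : ℝ) := by
                have := congrArg (Int.cast : ℤ → ℝ) (hck k)
                push_cast at this
                exact this
              rw [h4, h5] at h6
              simp only [sub_mul, sum_sub_distrib]
              linarith
            have := Matrix.eq_zero_of_vecMul_eq_zero hM hz
            intro j
            exact congrFun this j
          rw [Finset.mem_image]
          have hker : a.1 - a0.1 - ∑ j, (c j : ZMod N) * g j ∈ (phi γ).ker := by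
            rw [AddMonoidHom.mem_ker]
            funext k
            change γ k * (a.1 - a0.1 - ∑ j, (c j : ZMod N) * g j) = 0
            rw [mul_sub, mul_sub, ← hY a.1 a.2 k, ← hY a0.1 a0.2 k, mul_sum]
            have h7 := congrArg (Int.cast : ℤ → ZMod N) (hck k)
            push_cast at h7
            rw [h7]
            rw [sub_eq_zero]
            refine sum_congr rfl fun j _ => ?_
            rw [hg j k]; ring
          refine ⟨(c, ⟨_, hker⟩), ?_, ?_⟩
          · rw [mem_product]
            refine ⟨?_, mem_univ _⟩
            rw [Fintype.mem_piFinset]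
            intro j
            rw [Finset.mem_Icc]
            have h8 := hct j
            have h9 := abs_le.mp (ht1 a.1 a.2 j)
            have h10 := abs_le.mp (ht1 a0.1 a0.2 j)
            constructor
            · have : (-2 : ℝ) ≤ (c j : ℝ) := by linarith
              exact_mod_cast this
            · have : (c j : ℝ) ≤ 2 := by linarith
              exact_mod_cast this
          · change a0.1 + ∑ j, (c j : ZMod N) * g j + (a.1 - a0.1 - ∑ j, (c j : ZMod N) * g j) = a.1
            ring
        have h11 := card_le_card hsub
        rw [card_map] at h11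
        refine h11.trans (card_image_le.trans ?_)
        rw [card_product, Fintype.card_piFinset, card_univ, ← Nat.card_eq_fintype_card]
        simp
  have hfinal : A.card * N ^ d * (Nat.card (phi γ).range) ≤
      5 ^ d * N * (Matrix.of m).det.natAbs * (Nat.card (phi γ).range) := by
    calc A.card * N ^ d * (Nat.card (phi γ).range)
        ≤ ((5 ^ d * Nat.card (phi γ).ker) * L1.relIndex L) * N ^ d * (Nat.card (phi γ).range) := by
          gcongr
      _ = 5 ^ d * (Nat.card (phi γ).ker * Nat.card (phi γ).range) * (L1.relIndex L * (Nat.card (phi γ).range *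
            (phi γ).range.index)) := by rw [e3]; ring
      _ = 5 ^ d * N * (L1.relIndex L * L.index) * (Nat.card (phi γ).range) := by rw [e4, e2]; ring
      _ = 5 ^ d * N * (Matrix.of m).det.natAbs * (Nat.card (phi γ).range) := by rw [e1]
  have hpos : 0 < Nat.card (phi γ).range := Nat.card_pos
  exact Nat.le_of_mul_le_mul_right hfinal hpos

end Pool.Agent.TH858.CB
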