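import Mathlib

/-!
# Selection of a basis

`S ⊆ U` are finite sets of vectors of `ℝ^d`, `U` spans.  There is a basis `w` of vectors of `U` such that every `y ∈ S`
is a combination, with coefficients of absolute value at most one, of those `w_j` which are in `S`, and such that
every `y ∈ U` whose coordinates at the other `w_j` are smaller than one is a combination of the `w_j` in `S`.
-/

set_option autoImplicit false

namespace Pool.Agent.TH858.CB

open Matrix Finset

variable {d : ℕ}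

lemma det_upd (W : Matrix (Fin d) (Fin d) ℝ) (hW : W.det ≠ 0) (y : Fin d → ℝ) (j : Fin d) :
    (W.updateRow j y).det = (y ᵥ* W⁻¹) j * W.det := by
  have h := Matrix.det_smul_inv_vecMul_eq_cramer_transpose W y (isUnit_iff_ne_zero.mpr hW)
  have h2 := congrFun h j
  rw [Matrix.cramer_transpose_apply] at h2
  rw [← h2]
  simp [mul_comm]

lemma coord_sum (W : Matrix (Fin d) (Fin d) ℝ) (hW : W.det ≠ 0) (y : Fin d → ℝ) :
    y = ∑ j, (y ᵥ* W⁻¹) j • W j := by
  have h1 : y = (y ᵥ* W⁻¹) ᵥ* W := by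
    rw [Matrix.vecMul_vecMul, Matrix.nonsing_inv_mul _ (isUnit_iff_ne_zero.mpr hW), Matrix.vecMul_one]
  conv_lhs => rw [h1]
  rw [Matrix.vecMul_eq_sum]

lemma coord_unique (W : Matrix (Fin d) (Fin d) ℝ) (hW : W.det ≠ 0) (c : Fin d → ℝ) :
    (∑ j, c j • W j) ᵥ* W⁻¹ = c := by
  rw [← Matrix.vecMul_eq_sum, Matrix.vecMul_vecMul, Matrix.mul_nonsing_inv _ (isUnit_iff_ne_zero.mpr hW),
    Matrix.vecMul_one]

lemma upd_ne (w : Fin d → Fin d → ℝ) (j i : Fin d) (y : Fin d → ℝ) (h : i ≠ j) :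
    Function.update w j y i = w i := Function.update_of_ne h _ _

lemma upd_det (w : Fin d → Fin d → ℝ) (hw : (Matrix.of w).det ≠ 0) (y : Fin d → ℝ) (j : Fin d) :
    (Matrix.of (Function.update w j y)).det = (y ᵥ* (Matrix.of w)⁻¹) j * (Matrix.of w).det :=
  det_upd (Matrix.of w) hw y j

theorem select (U S : Finset (Fin d → ℝ)) (hSU : S ⊆ U)
    (hU : ∃ w : Fin d → Fin d → ℝ, (∀ j, w j ∈ U) ∧ (Matrix.of w).det ≠ 0) :
    ∃ w : Fin d → Fin d → ℝ, (∀ j, w j ∈ U) ∧ (Matrix.of w).det ≠ 0 ∧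
      (∀ y ∈ S, ∀ j, w j ∉ S → (y ᵥ* (Matrix.of w)⁻¹) j = 0) ∧
      (∀ y ∈ S, ∀ j, |(y ᵥ* (Matrix.of w)⁻¹) j| ≤ 1) ∧
      (∀ y ∈ U, (∀ j, w j ∉ S → |(y ᵥ* (Matrix.of w)⁻¹) j| < 1) →
        ∀ j, w j ∉ S → (y ᵥ* (Matrix.of w)⁻¹) j = 0) := by
  classical
  -- all bases with elements in `U`
  set T : Finset (Fin d → Fin d → ℝ) := (Fintype.piFinset fun _ => U).filter
    (fun w => (Matrix.of w).det ≠ 0) with hT
  have memT : ∀ w : Fin d → Fin d → ℝ, w ∈ T ↔ (∀ j, w j ∈ U) ∧ (Matrix.of w).det ≠ 0 := by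
    intro w
    rw [hT, mem_filter, Fintype.mem_piFinset]
  have hTne : T.Nonempty := by
    obtain ⟨w, hw⟩ := hU
    exact ⟨w, (memT w).mpr hw⟩
  obtain ⟨cnt, hcnt⟩ : ∃ cnt : (Fin d → Fin d → ℝ) → ℕ, ∀ w, cnt w = (univ.filter fun j => w j ∈ S).card :=
    ⟨_, fun _ => rfl⟩
  obtain ⟨w0, hw0T, hw0max⟩ := exists_max_image T cnt hTne
  set T1 := T.filter (fun w => cnt w = cnt w0) with hT1
  have hT1ne : T1.Nonempty := ⟨w0, mem_filter.mpr ⟨hw0T, rfl⟩⟩
  obtain ⟨w1, hw1T, hw1max⟩ := exists_max_image T1 (fun w => |(Matrix.of w).det|) hT1ne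
  obtain ⟨hw1T0, hw1c⟩ := mem_filter.mp hw1T
  -- completions of minimal determinant
  set T2 := T.filter (fun w => ∀ j, w1 j ∈ S → w j = w1 j) with hT2
  have hT2ne : T2.Nonempty := ⟨w1, mem_filter.mpr ⟨hw1T0, fun _ _ => rfl⟩⟩
  obtain ⟨w2, hw2T, hw2min⟩ := exists_min_image T2 (fun w => |(Matrix.of w).det|) hT2ne
  obtain ⟨hw2T0, hw2e⟩ := mem_filter.mp hw2T
  have h2 := (memT w2).mp hw2T0
  have h1 := (memT w1).mp hw1T0
  -- `w2 j ∈ S` iff `w1 j ∈ S`
  have hsub : (univ.filter fun j => w1 j ∈ S) ⊆ (univ.filter fun j => w2 j ∈ S) := by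
    intro j hj
    rw [mem_filter] at hj ⊢
    exact ⟨hj.1, by rw [hw2e j hj.2]; exact hj.2⟩
  have hcnt2 : cnt w2 ≤ cnt w1 := by rw [hw1c]; exact hw0max w2 hw2T0
  have heq : (univ.filter fun j => w1 j ∈ S) = (univ.filter fun j => w2 j ∈ S) :=
    eq_of_subset_of_card_le hsub (by rw [← hcnt, ← hcnt]; exact hcnt2)
  have hiff : ∀ j, w1 j ∈ S ↔ w2 j ∈ S := by
    intro j
    have h3 : j ∈ (univ.filter fun j => w1 j ∈ S) ↔ j ∈ (univ.filter fun j => w2 j ∈ S) := by rw [heq]
    rw [mem_filter, mem_filter] at h3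
    simpa using h3
  -- replacing a vector
  have hupd : ∀ (w : Fin d → Fin d → ℝ) (y : Fin d → ℝ) (j : Fin d), w ∈ T → y ∈ U →
      (y ᵥ* (Matrix.of w)⁻¹) j ≠ 0 → Function.update w j y ∈ T := by
    intro w y j hw hy hne
    obtain ⟨ha, hb⟩ := (memT w).mp hw
    refine (memT _).mpr ⟨?_, ?_⟩
    · intro i
      by_cases hi : i = j
      · subst hi; rw [Function.update_self]; exact hy
      · rw [upd_ne _ _ _ _ hi]; exact ha i
    · rw [upd_det w hb]
      exact mul_ne_zero hne hb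
  have hzero : ∀ y ∈ S, ∀ j, w2 j ∉ S → (y ᵥ* (Matrix.of w2)⁻¹) j = 0 := by
    intro y hy j hj
    by_contra hne
    have hin := hupd w2 y j hw2T0 (hSU hy) hne
    have hle := hw0max _ hin
    have hlt : cnt w2 < cnt (Function.update w2 j y) := by
      rw [hcnt, hcnt]
      apply Finset.card_lt_card
      rw [Finset.ssubset_iff_of_subset]
      · refine ⟨j, ?_, ?_⟩
        · rw [mem_filter]
          refine ⟨mem_univ _, ?_⟩
          rw [Function.update_self]; exact hy
        · rw [mem_filter]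
          exact fun h => hj h.2
      · intro i hi
        rw [mem_filter] at hi ⊢
        refine ⟨hi.1, ?_⟩
        have hij : i ≠ j := by
          rintro rfl
          exact hj hi.2
        rw [upd_ne _ _ _ _ hij]
        exact hi.2
    have hc21 : cnt w2 = cnt w1 := by rw [hcnt, hcnt]; exact (congrArg Finset.card heq).symm
    omega
  refine ⟨w2, h2.1, h2.2, hzero, ?_, ?_⟩
  · intro y hy j
    by_cases hj : w2 j ∈ S
    · -- the coordinates with respect to `w1` and `w2` agree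
      have e1 : y = ∑ i, (y ᵥ* (Matrix.of w2)⁻¹) i • (Matrix.of w1) i := by
        conv_lhs => rw [coord_sum (Matrix.of w2) h2.2 y]
        refine sum_congr rfl fun i _ => ?_
        by_cases hi : w1 i ∈ S
        · congr 1
          exact hw2e i hi
        · rw [hzero y hy i (fun h => hi ((hiff i).mpr h)), zero_smul, zero_smul]
      have e2 : y ᵥ* (Matrix.of w1)⁻¹ = y ᵥ* (Matrix.of w2)⁻¹ := by
        conv_lhs => rw [e1]
        exact coord_unique (Matrix.of w1) h1.2 _
      rw [← e2]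
      by_cases hne : (y ᵥ* (Matrix.of w1)⁻¹) j = 0
      · rw [hne, abs_zero]; exact zero_le_one
      have hin := hupd w1 y j hw1T0 (hSU hy) hne
      have hin1 : Function.update w1 j y ∈ T1 := by
        rw [hT1, mem_filter]
        refine ⟨hin, ?_⟩
        rw [← hw1c, hcnt, hcnt]
        congr 1
        ext i
        rw [mem_filter, mem_filter]
        by_cases hi : i = j
        · subst hi
          rw [Function.update_self]
          exact ⟨fun _ => ⟨mem_univ _, (hiff i).mpr hj⟩, fun _ => ⟨mem_univ _, hy⟩⟩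
        · rw [upd_ne _ _ _ _ hi]
      have hle := hw1max _ hin1
      rw [upd_det w1 h1.2, abs_mul] at hle
      have hp : 0 < |(Matrix.of w1).det| := abs_pos.mpr h1.2
      by_contra hcon
      push Not at hcon
      nlinarith
    · rw [hzero y hy j hj, abs_zero]
      exact zero_le_one
  · intro y hy hsm j hj
    by_contra hne
    have hin := hupd w2 y j hw2T0 hy hne
    have hin2 : Function.update w2 j y ∈ T2 := by
      rw [hT2, mem_filter]
      refine ⟨hin, ?_⟩
      intro i hi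
      have hij : i ≠ j := by
        rintro rfl
        exact hj ((hiff i).mp hi)
      rw [upd_ne _ _ _ _ hij]
      exact hw2e i hi
    have hle := hw2min _ hin2
    rw [upd_det w2 h2.2, abs_mul] at hle
    have hp : 0 < |(Matrix.of w2).det| := abs_pos.mpr h2.2
    have h3 := hsm j hj
    nlinarith

end Pool.Agent.TH858.CB
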