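import Mathlib
import Pool.Agent.TH858.CB.Exch
import Pool.Agent.TH858.CB.Sel
import Pool.Agent.TH858.CB.Idx

/-!
# Convex Bohr sets contain Bohr sets

`A ⊆ ℤ/N` is the set of all `x` for which the vector `(γ_k x / N)_k` is, modulo `1`, in a symmetric convex set
`K ⊆ [-R, R]^d`, `R ≥ d + 2`.  Then `A` contains a Bohr set with at most `24 d + 4 log (N / |A|) / log R` frequencies
and radius `1 / (8 R)`.
-/

set_option autoImplicit false

namespace Pool.Agent.TH858.CB

open Matrix Finset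

variable {d : ℕ}

/-- `‖c / N‖`. -/
noncomputable def nn {N : ℕ} (c : ZMod N) : ℝ := nint ((c.val : ℝ) / N)

lemma nint_eq_nn {N : ℕ} [NeZero N] (a : ℤ) (c : ZMod N) (h : (a : ZMod N) = c) : nint ((a : ℝ) / N) = nn c := by
  have hN : (N : ℝ) ≠ 0 := Nat.cast_ne_zero.mpr (NeZero.ne N)
  have h1 : (a : ZMod N) = ((c.val : ℤ) : ZMod N) := by
    rw [h]; simp
  rw [ZMod.intCast_eq_intCast_iff_dvd_sub] at h1
  obtain ⟨z, hz⟩ := h1
  have h2 : (a : ℝ) / N = (c.val : ℝ) / N + ((-z : ℤ) : ℝ) := by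
    have h3 : (c.val : ℝ) - (a : ℝ) = N * z := by exact_mod_cast hz
    field_simp
    push_cast
    linarith
  rw [h2, nint_add_int]
  rfl

/-- The shifted combination. -/
lemma nint_comb {N : ℕ} [NeZero N] (γ : Fin d → ZMod N) (x : ZMod N) (m : Fin d → ℤ) (z : Fin d → ℤ) :
    nint (∑ k, (m k : ℝ) * (((γ k * x).val : ℝ) / N + z k)) = nn ((∑ k, (m k : ZMod N) * γ k) * x) := by
  have h1 : ∑ k, (m k : ℝ) * (((γ k * x).val : ℝ) / N + z k) =
      ((∑ k, m k * ((γ k * x).val : ℤ) : ℤ) : ℝ) / N + ((∑ k, m k * z k : ℤ) : ℝ) := by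
    push_cast
    rw [sum_div, ← sum_add_distrib]
    refine sum_congr rfl fun k _ => ?_
    ring
  rw [h1, nint_add_int]
  apply nint_eq_nn
  push_cast
  rw [sum_mul]
  refine sum_congr rfl fun k _ => ?_
  simp [mul_assoc]

lemma nint_mul {N : ℕ} [NeZero N] (c : ZMod N) (a z : ℤ) :
    nint ((a : ℝ) * ((c.val : ℝ) / N + z)) = nn ((a : ZMod N) * c) := by
  have h1 : (a : ℝ) * ((c.val : ℝ) / N + z) = ((a * (c.val : ℤ) : ℤ) : ℝ) / N + ((a * z : ℤ) : ℝ) := by
    push_cast; ring
  rw [h1, nint_add_int]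
  apply nint_eq_nn
  simp

/-- Going from a small radius to a large one at the cost of more frequencies. -/
lemma boost {N : ℕ} [NeZero N] (c : ZMod N) (D : ℕ) (hD : 1 ≤ D)
    (h : ∀ i < 4, nn (((D ^ i : ℕ) : ZMod N) * c) ≤ 1 / (4 * D)) : nn c ≤ 1 / (4 * D ^ 4) := by
  have hD0 : (0 : ℝ) < D := by exact_mod_cast hD
  have hD1 : (1 : ℝ) ≤ D := by exact_mod_cast hD
  obtain ⟨θ, hθ⟩ : ∃ θ : ℝ, θ = (c.val : ℝ) / N + ((-round ((c.val : ℝ) / N) : ℤ) : ℝ) := ⟨_, rfl⟩
  have hmul : ∀ i : ℕ, nint ((D : ℝ) ^ i * θ) = nn (((D ^ i : ℕ) : ZMod N) * c) := by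
    intro i
    have := nint_mul c ((D ^ i : ℕ) : ℤ) (-round ((c.val : ℝ) / N))
    rw [hθ]
    push_cast at this ⊢
    exact this
  have hθabs : |θ| = nn c := by
    rw [hθ]
    unfold nn nint
    congr 1
    push_cast
    ring
  have key : ∀ i < 4, |(D : ℝ) ^ i * θ| ≤ 1 / (4 * D) := by
    intro i
    induction i with
    | zero =>
      intro _
      have h0 := h 0 (by norm_num)
      have h1 : nn (((D ^ 0 : ℕ) : ZMod N) * c) = nn c := by simp
      rw [h1] at h0
      rw [pow_zero, one_mul, hθabs]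
      exact h0
    | succ i ih =>
      intro hi
      have h1 := ih (by omega)
      have h2 : |(D : ℝ) ^ (i + 1) * θ| ≤ 1 / 4 := by
        have : (D : ℝ) ^ (i + 1) * θ = D * ((D : ℝ) ^ i * θ) := by ring
        rw [this, abs_mul, abs_of_pos hD0]
        calc (D : ℝ) * |(D : ℝ) ^ i * θ| ≤ D * (1 / (4 * D)) := by gcongr
          _ = 1 / 4 := by field_simp
      have h3 := h (i + 1) hi
      rw [← hmul, nint_of_small (by linarith)] at h3
      exact h3
  have h3 := key 3 (by norm_num)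
  rw [abs_mul, abs_of_pos (by positivity)] at h3
  rw [← hθabs]
  have h4 : |θ| ≤ 1 / (4 * D) / D ^ 3 := by
    rw [le_div_iff₀ (by positivity)]
    linarith
  calc |θ| ≤ 1 / (4 * D) / D ^ 3 := h4
    _ = 1 / (4 * D ^ 4) := by field_simp

lemma conv_mem (K : Set (Fin d → ℝ)) (hK : Convex ℝ K) (hsym : ∀ y ∈ K, -y ∈ K) (h0 : (0 : Fin d → ℝ) ∈ K)
    (c : Fin d → ℝ) (w : Fin d → Fin d → ℝ) (hw : ∀ j, c j ≠ 0 → w j ∈ K) (hc : ∑ j, |c j| ≤ 1) :
    ∑ j, c j • w j ∈ K := by
  classical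
  let p : Fin d → Fin d → ℝ := fun j => if c j = 0 then 0 else if 0 < c j then w j else -w j
  have hp : ∀ j, p j ∈ K := by
    intro j
    by_cases hj : c j = 0
    · simp only [p, hj, if_true]; exact h0
    · by_cases hj' : 0 < c j
      · simp only [p, hj, hj', if_true, if_false]; exact hw j hj
      · simp only [p, hj, hj', if_false]; exact hsym _ (hw j hj)
  have hcp : ∀ j, c j • w j = |c j| • p j := by
    intro j
    by_cases hj : c j = 0
    · simp [hj]
    · by_cases hj' : 0 < c j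
      · simp only [p, hj, hj', if_true, if_false, abs_of_pos hj']
      · have hneg : c j < 0 := lt_of_le_of_ne (not_lt.mp hj') hj
        simp only [p, hj, hj', if_false, abs_of_neg hneg]
        simp
  have hsum : ∑ j, c j • w j = ∑ i : Option (Fin d), (Option.elim i (1 - ∑ j, |c j|) (fun j => |c j|)) •
      (Option.elim i (0 : Fin d → ℝ) p) := by
    rw [Fintype.sum_option]
    simp only [Option.elim, smul_zero, zero_add]
    exact sum_congr rfl fun j _ => hcp j
  rw [hsum]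
  refine hK.sum_mem ?_ ?_ ?_
  · rintro (_ | j) _
    · simp only [Option.elim]; linarith
    · simp only [Option.elim]; exact abs_nonneg _
  · rw [Fintype.sum_option]
    simp
  · rintro (_ | j) _
    · exact h0
    · exact hp j

/-- The vectors congruent modulo one to `(γ_k x / N)_k` for some `x`, with entries at most `R`, form a finite
set. -/
lemma finite_U {N : ℕ} [NeZero N] (γ : Fin d → ZMod N) (R : ℝ) :
    {y : Fin d → ℝ | ∃ x : ZMod N, ∀ k, |y k| ≤ R ∧ ∃ z : ℤ, y k = ((γ k * x).val : ℝ) / N + z}.Finite := by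
  classical
  have hN : (0 : ℝ) < N := Nat.cast_pos.mpr (NeZero.pos N)
  have hfin : ((fun m : Fin d → ℤ => fun k => (m k : ℝ) / N) ''
      (↑(Fintype.piFinset fun _ : Fin d => Finset.Icc (-⌈R * N⌉) ⌈R * N⌉) : Set (Fin d → ℤ))).Finite :=
    (Finset.finite_toSet _).image _
  refine hfin.subset ?_
  rintro y ⟨x, hx⟩
  choose h1 z hz using hx
  refine ⟨fun k => ((γ k * x).val : ℤ) + z k * N, ?_, ?_⟩
  · rw [Finset.mem_coe, Fintype.mem_piFinset]
    intro k
    have e : ((((γ k * x).val : ℤ) + z k * N : ℤ) : ℝ) = y k * N := by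
      rw [hz k]
      push_cast
      field_simp
    have h2 := abs_le.mp (h1 k)
    have h3 : R * N ≤ (⌈R * N⌉ : ℝ) := Int.le_ceil _
    rw [Finset.mem_Icc]
    constructor
    · have : ((-⌈R * N⌉ : ℤ) : ℝ) ≤ ((((γ k * x).val : ℤ) + z k * N : ℤ) : ℝ) := by
        rw [e]; push_cast; nlinarith
      exact_mod_cast this
    · have : ((((γ k * x).val : ℤ) + z k * N : ℤ) : ℝ) ≤ ((⌈R * N⌉ : ℤ) : ℝ) := by
        rw [e]; nlinarith
      exact_mod_cast this
  · funext k
    rw [hz k]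
    push_cast
    field_simp

/-- The numerical part of the proof. -/
lemma rank_bound (d n N a : ℕ) (R v : ℝ) (hR : (d : ℝ) + 2 ≤ R) (_hv : 0 < v) (ha : 0 < a) (hN : 0 < N)
    (h1 : R ^ n * v ≤ d.factorial * R ^ d) (h2 : (a : ℝ) ≤ 5 ^ d * N * v) :
    (n : ℝ) ≤ 5 * d + Real.log (N / a) / Real.log R := by
  have hd0 : (0 : ℝ) ≤ d := Nat.cast_nonneg d
  have hR2 : 2 ≤ R := by linarith
  have hR0 : 0 < R := by linarith
  have hlog : 0 < Real.log R := Real.log_pos (by linarith)
  have ha' : (0 : ℝ) < a := by exact_mod_cast ha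
  have hN' : (0 : ℝ) < N := by exact_mod_cast hN
  have hfac : (d.factorial : ℝ) ≤ R ^ d := by
    calc (d.factorial : ℝ) ≤ ((d ^ d : ℕ) : ℝ) := by exact_mod_cast Nat.factorial_le_pow d
      _ = (d : ℝ) ^ d := by push_cast; rfl
      _ ≤ R ^ d := pow_le_pow_left₀ hd0 (by linarith) d
  have h5 : (5 : ℝ) ^ d ≤ (R ^ 3) ^ d := by
    refine pow_le_pow_left₀ (by norm_num) ?_ d
    have : (2 : ℝ) ^ 3 ≤ R ^ 3 := pow_le_pow_left₀ (by norm_num) hR2 3
    linarith
  have key : R ^ n * (a / N) ≤ R ^ (5 * d) := by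
    have h3 : R ^ n * (a : ℝ) ≤ R ^ (5 * d) * N := by
      calc R ^ n * (a : ℝ) ≤ R ^ n * (5 ^ d * N * v) := by gcongr
        _ = (R ^ n * v) * (5 ^ d * N) := by ring
        _ ≤ (d.factorial * R ^ d) * (5 ^ d * N) := by gcongr
        _ ≤ (R ^ d * R ^ d) * ((R ^ 3) ^ d * N) := by gcongr
        _ = R ^ (5 * d) * N := by
            rw [← pow_mul]
            have : R ^ (5 * d) = R ^ d * R ^ d * R ^ (3 * d) := by
              rw [← pow_add, ← pow_add]; congr 1; ring
            rw [this]; ring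
    rw [← mul_div_assoc, div_le_iff₀ hN']
    exact h3
  have h4 := Real.log_le_log (by positivity) key
  rw [Real.log_mul (by positivity) (by positivity), Real.log_pow, Real.log_pow,
    Real.log_div ha'.ne' hN'.ne'] at h4
  rw [Real.log_div hN'.ne' ha'.ne']
  have h6 : (n : ℝ) * Real.log R ≤ 5 * d * Real.log R + (Real.log N - Real.log a) := by
    push_cast at h4
    linarith
  have h7 : (n : ℝ) ≤ (5 * d * Real.log R + (Real.log N - Real.log a)) / Real.log R := by
    rw [le_div_iff₀ hlog]; exact h6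
  calc (n : ℝ) ≤ (5 * d * Real.log R + (Real.log N - Real.log a)) / Real.log R := h7
    _ = 5 * d + (Real.log N - Real.log a) / Real.log R := by field_simp

theorem main {N : ℕ} [NeZero N] (γ : Fin d → ZMod N) (K : Set (Fin d → ℝ)) (hK : Convex ℝ K)
    (hsym : ∀ y ∈ K, -y ∈ K) (R : ℝ) (hR : (d : ℝ) + 2 ≤ R) (A : Finset (ZMod N)) (hne : A.Nonempty)
    (hA : ∀ x, x ∈ A ↔ ∃ y ∈ K, ∀ k, |y k| ≤ R ∧ ∃ z : ℤ, y k = ((γ k * x).val : ℝ) / N + z) :
    ∃ Γ : Finset (ZMod N), (Γ.card : ℝ) ≤ 24 * d + 4 * (Real.log (N / A.card) / Real.log R) ∧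
      ∀ x : ZMod N, (∀ g ∈ Γ, nn (g * x) ≤ 1 / (8 * R)) → x ∈ A := by
  classical
  have hd0 : (0 : ℝ) ≤ d := Nat.cast_nonneg d
  have hR2 : 2 ≤ R := by linarith
  have hR0 : 0 < R := by linarith
  have hNpos : (0 : ℝ) < N := Nat.cast_pos.mpr (NeZero.pos N)
  -- zero is in `K`
  have h0K : (0 : Fin d → ℝ) ∈ K := by
    obtain ⟨x, hx⟩ := hne
    obtain ⟨y, hy, -⟩ := (hA x).mp hx
    have := hK hy (hsym y hy) (a := 1 / 2) (b := 1 / 2) (by norm_num) (by norm_num) (by norm_num)
    simpa using this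
  -- the finite sets
  set U : Finset (Fin d → ℝ) := (finite_U γ R).toFinset with hU
  have memU : ∀ y, y ∈ U ↔ ∃ x : ZMod N, ∀ k, |y k| ≤ R ∧ ∃ z : ℤ, y k = ((γ k * x).val : ℝ) / N + z := by
    intro y
    rw [hU, Set.Finite.mem_toFinset]
    rfl
  set S : Finset (Fin d → ℝ) := U.filter (fun y => y ∈ K) with hS
  have hbase : ∃ w : Fin d → Fin d → ℝ, (∀ j, w j ∈ U) ∧ (Matrix.of w).det ≠ 0 := by
    refine ⟨fun j => Pi.single j 1, ?_, ?_⟩
    · intro j
      rw [memU]
      refine ⟨0, fun k => ?_⟩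
      beta_reduce
      by_cases hk : k = j
      · subst hk
        rw [Pi.single_eq_same]
        refine ⟨by rw [abs_one]; linarith, 1, by simp⟩
      · rw [Pi.single_eq_of_ne hk]
        refine ⟨by rw [abs_zero]; linarith, 0, by simp⟩
    · have : (Matrix.of fun j : Fin d => (Pi.single j 1 : Fin d → ℝ)) = 1 := by
        ext i j
        rw [Matrix.of_apply, Matrix.one_apply]
        by_cases h : i = j
        · subst h; simp
        · rw [Pi.single_eq_of_ne (Ne.symm h), if_neg h]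
      rw [this, Matrix.det_one]
      exact one_ne_zero
  obtain ⟨w, hwU, hwdet, hw0, hw1, hw2⟩ := select U S (filter_subset _ _) hbase
  -- integer matrix
  have hwx : ∀ j, ∃ x : ZMod N, ∀ k, |w j k| ≤ R ∧ ∃ z : ℤ, w j k = ((γ k * x).val : ℝ) / N + z :=
    fun j => (memU _).mp (hwU j)
  choose gx hgx using hwx
  choose hwR zz hzz using hgx
  obtain ⟨m, hm⟩ : ∃ m : Fin d → Fin d → ℤ, ∀ j k, m j k = ((γ k * gx j).val : ℤ) + zz j k * N := ⟨_, fun _ _ => rfl⟩
  have hmw : ∀ j k, (m j k : ℝ) = N * w j k := by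
    intro j k
    rw [hm, hzz]
    push_cast
    field_simp
  have hdetm : (((Matrix.of m).det : ℤ) : ℝ) = (N : ℝ) ^ d * (Matrix.of w).det := by
    have e1 : (((Matrix.of m).det : ℤ) : ℝ) = ((Matrix.of m).map (Int.cast : ℤ → ℝ)).det := by
      have := (Int.castRingHom ℝ).map_det (Matrix.of m)
      exact this
    have e2 : (Matrix.of m).map (Int.cast : ℤ → ℝ) = (N : ℝ) • (Matrix.of w) := by
      ext j k
      simp [hmw]
    rw [e1, e2, Matrix.det_smul, Fintype.card_fin]
  have hdetm0 : (Matrix.of m).det ≠ 0 := by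
    intro h
    rw [h, Int.cast_zero] at hdetm
    have : (N : ℝ) ^ d * (Matrix.of w).det ≠ 0 := mul_ne_zero (by positivity) hwdet
    exact this hdetm.symm
  -- the points of `A`
  have hAy : ∀ x : ZMod N, ∃ y : Fin d → ℝ, x ∈ A → y ∈ S ∧ ∀ k, ∃ z : ℤ, y k = ((γ k * x).val : ℝ) / N + z := by
    intro x
    by_cases hx : x ∈ A
    · obtain ⟨y, hy, hy'⟩ := (hA x).mp hx
      refine ⟨y, fun _ => ⟨?_, fun k => (hy' k).2⟩⟩
      rw [hS, mem_filter, memU]
      exact ⟨⟨x, hy'⟩, hy⟩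
    · exact ⟨0, fun h => absurd h hx⟩
  choose yy hyy using hAy
  have hYex : ∀ x : ZMod N, ∃ Y : Fin d → ℤ, x ∈ A → ∀ k, (Y k : ℝ) = N * yy x k ∧ ((Y k : ℤ) : ZMod N) = γ k * x := by
    intro x
    by_cases hx : x ∈ A
    · choose z hz using (hyy x hx).2
      refine ⟨fun k => ((γ k * x).val : ℤ) + z k * N, fun _ k => ⟨?_, ?_⟩⟩
      · rw [hz k]
        push_cast
        field_simp
      · push_cast
        simp
    · exact ⟨0, fun h => absurd h hx⟩
  choose Y hY using hYex
  have hcount := card_le γ m (fun j => ⟨gx j, fun k => by rw [hm]; push_cast; simp⟩) hdetm0 A Y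
    (fun x hx k => (hY x hx k).2) (fun x => yy x ᵥ* (Matrix.of w)⁻¹)
    (fun x hx k => by
      rw [(hY x hx k).1]
      conv_lhs => rw [coord_sum (Matrix.of w) hwdet (yy x)]
      rw [Finset.sum_apply, mul_sum]
      refine sum_congr rfl fun j _ => ?_
      rw [Pi.smul_apply, smul_eq_mul, Matrix.of_apply, hmw]
      ring)
    (fun x hx j => hw1 _ (hyy x hx).1 j)
  have hcount' : (A.card : ℝ) ≤ 5 ^ d * N * |(Matrix.of w).det| := by
    have h1 : ((A.card * N ^ d : ℕ) : ℝ) ≤ ((5 ^ d * N * (Matrix.of m).det.natAbs : ℕ) : ℝ) := by exact_mod_cast hcount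
    have h0 : (((Matrix.of m).det.natAbs : ℕ) : ℝ) = |(((Matrix.of m).det : ℤ) : ℝ)| := by
      rw [Nat.cast_natAbs, Int.cast_abs]
    rw [Nat.cast_mul, Nat.cast_mul, Nat.cast_mul, h0, hdetm] at h1
    push_cast at h1
    rw [abs_mul, abs_of_pos (by positivity : (0 : ℝ) < (N : ℝ) ^ d)] at h1
    have h2 : (0 : ℝ) < (N : ℝ) ^ d := by positivity
    have h3 : (A.card : ℝ) * (N : ℝ) ^ d ≤ (5 ^ d * N * |(Matrix.of w).det|) * (N : ℝ) ^ d := by
      calc (A.card : ℝ) * (N : ℝ) ^ d ≤ 5 ^ d * N * ((N : ℝ) ^ d * |(Matrix.of w).det|) := h1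
        _ = _ := by ring
    exact le_of_mul_le_mul_right h3 h2
  -- the exchange lemma
  obtain ⟨ε, hε⟩ : ∃ ε : ℝ, ε = 1 / (4 * R ^ 4) := ⟨_, rfl⟩
  have hε0 : 0 < ε := by rw [hε]; positivity
  have hεR : ε * R ^ 4 = 1 / 4 := by rw [hε]; field_simp
  have hδ : ε * (1 + d / 2) ≤ ε * R := by
    refine mul_le_mul_of_nonneg_left ?_ hε0.le
    linarith
  have hδ2 : d * R * (ε * (1 + d / 2)) ≤ R * R * (ε * R) := by
    have : (d : ℝ) ≤ R := by linarith
    gcongr
  have hRR : R * R * (ε * R) = 1 / (4 * R) := by rw [hε]; field_simp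
  have hsm1 : (1 : ℝ) / (4 * R) ≤ 1 / 8 := by
    apply one_div_le_one_div_of_le (by norm_num) (by linarith)
  have hsm2 : d * ε / 2 ≤ 1 / 8 := by
    have h1 : d * ε ≤ R * ε := by
      refine mul_le_mul_of_nonneg_right ?_ hε0.le
      linarith
    have h2 : R * ε ≤ R ^ 4 * ε := by
      refine mul_le_mul_of_nonneg_right ?_ hε0.le
      calc R = R ^ 1 := (pow_one R).symm
        _ ≤ R ^ 4 := pow_le_pow_right₀ (by linarith) (by norm_num)
    linarith
  obtain ⟨Ms, hMs1, hMs2⟩ := exch (Matrix.of w) hwdet R R ε (fun i j => hwR i j) (by linarith) (by linarith) hε0.le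
    (by linarith)
  have hrank := rank_bound d Ms.length N A.card R |(Matrix.of w).det| hR (abs_pos.mpr hwdet) (card_pos.mpr hne)
    (NeZero.pos N) hMs1 hcount'
  -- the frequencies
  set Γ0 : Finset (ZMod N) := univ.image γ ∪ (Ms.map fun m => ∑ k, (m k : ZMod N) * γ k).toFinset with hΓ0
  set D : ℕ := ⌈R⌉₊ with hD
  have hDR : R ≤ D := Nat.le_ceil R
  have hDR2 : (D : ℝ) ≤ 2 * R := by
    have := Nat.ceil_lt_add_one hR0.le
    linarith
  have hD1 : 1 ≤ D := by
    have : (1 : ℝ) ≤ D := by linarith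
    exact_mod_cast this
  have hΓ0card : (Γ0.card : ℝ) ≤ d + Ms.length := by
    have h1 : Γ0.card ≤ d + Ms.length := by
      refine (card_union_le _ _).trans (add_le_add ?_ ?_)
      · exact card_image_le.trans (by simp)
      · exact (List.toFinset_card_le _).trans (by simp)
    exact_mod_cast h1
  refine ⟨(Finset.range 4).biUnion (fun i => Γ0.image fun g => ((D ^ i : ℕ) : ZMod N) * g), ?_, ?_⟩
  · have h1 : ((Finset.range 4).biUnion (fun i => Γ0.image fun g => ((D ^ i : ℕ) : ZMod N) * g)).card ≤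
        4 * Γ0.card := by
      refine card_biUnion_le.trans ?_
      calc ∑ i ∈ Finset.range 4, (Γ0.image fun g => ((D ^ i : ℕ) : ZMod N) * g).card
          ≤ ∑ _i ∈ Finset.range 4, Γ0.card := sum_le_sum fun i _ => card_image_le
        _ = 4 * Γ0.card := by simp
    calc (((Finset.range 4).biUnion (fun i => Γ0.image fun g => ((D ^ i : ℕ) : ZMod N) * g)).card : ℝ)
        ≤ 4 * Γ0.card := by exact_mod_cast h1
      _ ≤ 4 * (d + Ms.length) := by linarith
      _ ≤ 24 * d + 4 * (Real.log (N / A.card) / Real.log R) := by linarith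
  · intro x hx
    -- all frequencies of `Γ0` are small
    have hsmall : ∀ g ∈ Γ0, nn (g * x) ≤ ε := by
      intro g hg
      have h1 := boost (g * x) D hD1 (fun i hi => by
        have h2 := hx (((D ^ i : ℕ) : ZMod N) * g) (by
          rw [mem_biUnion]
          exact ⟨i, mem_range.mpr hi, mem_image_of_mem _ hg⟩)
        rw [← mul_assoc]
        refine h2.trans ?_
        apply one_div_le_one_div_of_le (by positivity)
        linarith)
      refine h1.trans ?_
      rw [hε]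
      apply one_div_le_one_div_of_le (by positivity)
      gcongr
    obtain ⟨yt, hyt⟩ : ∃ yt : Fin d → ℝ, ∀ k, yt k = ((γ k * x).val : ℝ) / N +
        ((-round (((γ k * x).val : ℝ) / N) : ℤ) : ℝ) := ⟨_, fun _ => rfl⟩
    have hytabs : ∀ k, |yt k| ≤ ε := by
      intro k
      have h1 : |yt k| = nn (γ k * x) := by
        rw [hyt]
        unfold nn nint
        congr 1
        push_cast
        ring
      rw [h1]
      exact hsmall _ (by
        rw [hΓ0, mem_union]
        left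
        exact mem_image_of_mem _ (mem_univ k))
    have hεR' : ε ≤ R := by
      have h1 : ε * 1 ≤ ε * R ^ 4 := by
        refine mul_le_mul_of_nonneg_left ?_ hε0.le
        exact one_le_pow₀ (by linarith)
      linarith
    have hytU : yt ∈ U := by
      rw [memU]
      exact ⟨x, fun k => ⟨(hytabs k).trans hεR', _, hyt k⟩⟩
    have hcoord := hMs2 yt hytabs (fun m hm => by
      have h1 : ∑ k, (m k : ℝ) * yt k = ∑ k, (m k : ℝ) * (((γ k * x).val : ℝ) / N +
          ((fun k => -round (((γ k * x).val : ℝ) / N)) k : ℤ)) := by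
        refine sum_congr rfl fun k _ => ?_
        rw [hyt]
      rw [h1, nint_comb]
      exact hsmall _ (by
        rw [hΓ0, mem_union]
        right
        rw [List.mem_toFinset]
        exact List.mem_map_of_mem hm))
    have hcoord' : ∀ j, |(yt ᵥ* (Matrix.of w)⁻¹) j| ≤ 1 / (4 * R) := by
      intro j
      calc _ ≤ _ := hcoord j
        _ ≤ _ := hδ2
        _ = _ := hRR
    have hzero := hw2 yt hytU (fun j _ => lt_of_le_of_lt ((hcoord' j).trans hsm1) (by norm_num))
    have hyK : yt ∈ K := by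
      rw [coord_sum (Matrix.of w) hwdet yt]
      refine conv_mem K hK hsym h0K _ w ?_ ?_
      · intro j hj
        by_contra hcon
        apply hj
        apply hzero j
        intro hjS
        rw [hS, mem_filter] at hjS
        exact hcon hjS.2
      · calc ∑ j, |(yt ᵥ* (Matrix.of w)⁻¹) j| ≤ ∑ _j : Fin d, 1 / (4 * R) := sum_le_sum fun j _ => hcoord' j
          _ = d * (1 / (4 * R)) := by simp
          _ ≤ R * (1 / (4 * R)) := by
              refine mul_le_mul_of_nonneg_right ?_ (by positivity)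
              linarith
          _ = 1 / 4 := by field_simp
          _ ≤ 1 := by norm_num
    rw [hA]
    exact ⟨yt, hyK, fun k => ⟨(hytabs k).trans hεR', _, hyt k⟩⟩

end Pool.Agent.TH858.CB
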